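import Pool.Agent.H250R3.Berg.Stmts

/-!
# Project H250-BERG, task ChebA
-/

set_option autoImplicit false

open Polynomial

namespace Pool.Agent.H730R5.Berg

open Pool.Agent.H250R3.Berg

lemma U_zero_right (ζ : ℂ) (a : ℕ) : U ζ a 0 = C ((ζ ^ a).im) := by
  simp [U]

lemma U_deriv (ζ : ℂ) (a n : ℕ) :
    derivative (U ζ a (n + 1)) = C ((n : ℝ) + 1) * U ζ (a + 1) n := by
  unfold U
  rw [derivative_sum, Finset.sum_range_succ', Finset.mul_sum]
  simp only [pow_zero, mul_one, derivative_C, add_zero]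
  refine Finset.sum_congr rfl fun i _ => ?_
  rw [derivative_C_mul_X_pow, Nat.add_sub_cancel, ← mul_assoc, ← C_mul]
  have h1 : ((n : ℝ) + 1) * (n.choose i : ℝ) = ((n + 1).choose (i + 1) : ℝ) * ((i : ℝ) + 1) := by
    exact_mod_cast Nat.add_one_mul_choose_eq n i
  have h2 : a + 1 + i = a + (i + 1) := by ring
  rw [h2]
  congr 2
  push_cast
  linear_combination (-(ζ ^ (a + (i + 1))).im) * h1

lemma U_iter (ζ : ℂ) (i : ℕ) : ∀ a n : ℕ,
    derivative^[i] (U ζ a n) = C ((n.descFactorial i : ℝ)) * U ζ (a + i) (n - i) := by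
  induction i with
  | zero => intro a n; simp
  | succ i ih =>
    intro a n
    rw [Function.iterate_succ_apply', ih, derivative_C_mul]
    rcases Nat.eq_zero_or_pos (n - i) with h | h
    · rw [h, U_zero_right, derivative_C, mul_zero, Nat.descFactorial_succ, h]
      simp
    · obtain ⟨m, hm⟩ : ∃ m, n - i = m + 1 := ⟨n - i - 1, by omega⟩
      have h2 : n - (i + 1) = m := by omega
      rw [hm, U_deriv, h2, Nat.descFactorial_succ, hm, ← mul_assoc, ← C_mul]
      congr 2
      push_cast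
      ring

lemma comb_iter (N k : ℕ) (ζ : ℂ) (j : ℕ) (c : ℕ → ℝ) (i : ℕ) :
    derivative^[i] (comb N k ζ j c) = ∑ m ∈ Finset.range j,
      C (c m * ((N * m + k + 1).descFactorial i : ℝ)) * U ζ i (N * m + k + 1 - i) := by
  unfold comb
  rw [iterate_derivative_sum]
  refine Finset.sum_congr rfl fun m _ => ?_
  rw [iterate_derivative_C_mul, U_iter, zero_add, C_mul, mul_assoc]

lemma adm_pow {N : ℕ} {ζ : ℂ} (h : Adm N ζ) : ζ ^ N = 1 := by
  rcases h with ⟨rfl, rfl⟩ | ⟨rfl, rfl⟩
  · have h3 : √3 * √3 = (3 : ℝ) := Real.mul_self_sqrt (by norm_num)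
    rw [pow_succ, pow_two]
    apply Complex.ext
    · simp only [Complex.mul_re, Complex.mul_im, Complex.one_re]
      linear_combination (3 / 8 : ℝ) * h3
    · simp only [Complex.mul_re, Complex.mul_im, Complex.one_im]
      linear_combination (-√3 / 8 : ℝ) * h3
  · exact Complex.I_pow_four

lemma U_period {N : ℕ} {ζ : ℂ} (h : Adm N ζ) (n : ℕ) : U ζ N n = U ζ 0 n := by
  unfold U
  refine Finset.sum_congr rfl fun i _ => ?_
  rw [pow_add, adm_pow h, one_mul, zero_add]

lemma partOne {N : ℕ} {ζ : ℂ} (h : Adm N ζ) {k : ℕ} (hk : k < N) (j : ℕ) (c : ℕ → ℝ) :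
    derivative^[N] (comb N k ζ (j + 1) c) =
      comb N k ζ j (fun m => c (m + 1) * ((N * (m + 1) + k + 1).descFactorial N : ℝ)) := by
  rw [comb_iter, Finset.sum_range_succ']
  have h0 : C (c 0 * ((N * 0 + k + 1).descFactorial N : ℝ)) * U ζ N (N * 0 + k + 1 - N) = 0 := by
    rcases Nat.lt_or_ge (k + 1) N with h1 | h1
    · have h2 : (N * 0 + k + 1).descFactorial N = 0 := by
        rw [Nat.descFactorial_eq_zero_iff_lt]; omega
      rw [h2]; simp
    · have h2 : N * 0 + k + 1 - N = 0 := by omega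
      rw [h2, U_period h, U_zero_right]; simp
  rw [h0, add_zero]
  unfold comb
  refine Finset.sum_congr rfl fun m _ => ?_
  have h3 : N * (m + 1) + k + 1 - N = N * m + k + 1 := by
    rw [Nat.mul_succ]; omega
  rw [h3, U_period h]

lemma comb_iter_eval (N k : ℕ) (ζ : ℂ) (j : ℕ) (c : ℕ → ℝ) (i : ℕ) (x : ℝ)
    (h : ∀ m, i ≤ N * m + k + 1 → (ζ ^ i * (1 + ζ * x) ^ (N * m + k + 1 - i)).im = 0) :
    (derivative^[i] (comb N k ζ j c)).eval x = 0 := by
  rw [comb_iter, eval_finsetSum]
  refine Finset.sum_eq_zero fun m _ => ?_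
  rw [eval_mul, eval_C, U_eval]
  rcases Nat.lt_or_ge (N * m + k + 1) i with h1 | h1
  · have h2 : (N * m + k + 1).descFactorial i = 0 := by
      rw [Nat.descFactorial_eq_zero_iff_lt]; exact h1
    rw [h2]; simp
  · rw [h m h1, mul_zero]

lemma one_three {ζ : ℂ} (h : ζ = ⟨-1 / 2, √3 / 2⟩) (i e q : ℕ) (hq : i + 2 * e = 3 * q) :
    (ζ ^ i * (1 + ζ) ^ e).im = 0 := by
  have h3 : √3 * √3 = (3 : ℝ) := Real.mul_self_sqrt (by norm_num)
  have h1 : ζ ^ 3 = 1 := adm_pow (Or.inl ⟨rfl, h⟩)
  have h2 : 1 + ζ = (-1) * ζ ^ 2 := by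
    rw [h, pow_two]
    apply Complex.ext
    · simp only [Complex.mul_re, Complex.mul_im, Complex.one_re, Complex.add_re, Complex.neg_re,
        Complex.neg_im, Complex.one_im]
      linear_combination (-1 / 4 : ℝ) * h3
    · simp only [Complex.mul_re, Complex.mul_im, Complex.one_re, Complex.add_im, Complex.neg_re,
        Complex.neg_im, Complex.one_im]
      ring
  have h4 : ζ ^ i * (1 + ζ) ^ e = (-1) ^ e := by
    rw [h2, mul_pow, ← pow_mul]
    calc ζ ^ i * ((-1) ^ e * ζ ^ (2 * e)) = (-1) ^ e * ζ ^ (i + 2 * e) := by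
          rw [pow_add]; ring
      _ = (-1) ^ e := by rw [hq, pow_mul, h1, one_pow, mul_one]
  rw [h4]
  rcases neg_one_pow_eq_or ℂ e with h5 | h5 <;> rw [h5] <;> simp

lemma one_four (i f q : ℕ) (hq : i + f = 2 * q) :
    (Complex.I ^ i * (1 + Complex.I) ^ (2 * f)).im = 0 := by
  have h2 : (1 + Complex.I) ^ 2 = 2 * Complex.I := by
    rw [add_sq, Complex.I_sq]; ring
  have h4 : Complex.I ^ i * (1 + Complex.I) ^ (2 * f) = (((2 : ℝ) ^ f * (-1) ^ q : ℝ) : ℂ) := by
    rw [pow_mul, h2, mul_pow]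
    calc Complex.I ^ i * (2 ^ f * Complex.I ^ f) = 2 ^ f * Complex.I ^ (i + f) := by
          rw [pow_add]; ring
      _ = (((2 : ℝ) ^ f * (-1) ^ q : ℝ) : ℂ) := by
          rw [hq, pow_mul, Complex.I_sq]; push_cast; ring
  rw [h4, Complex.ofReal_im]

lemma im_three {s : ℝ} (h0 : 0 < s) (h1 : s < 1) {k : ℕ} (hk : k < 3) :
    0 < ((1 + (⟨-1 / 2, √3 / 2⟩ : ℂ) * s) ^ (k + 1)).im := by
  have h3 : √3 * √3 = (3 : ℝ) := Real.mul_self_sqrt (by norm_num)
  have hp : 0 < √3 := Real.sqrt_pos.mpr (by norm_num)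
  have hw : (1 + (⟨-1 / 2, √3 / 2⟩ : ℂ) * s) = ⟨1 - s / 2, √3 * s / 2⟩ := by
    apply Complex.ext
    · simp only [Complex.mul_re, Complex.one_re, Complex.add_re, Complex.ofReal_re,
        Complex.ofReal_im]
      ring
    · simp only [Complex.mul_im, Complex.one_im, Complex.add_im, Complex.ofReal_re,
        Complex.ofReal_im]
      ring
  rw [hw]
  have hb : 0 < √3 * s := mul_pos hp h0
  interval_cases k
  · simp only [zero_add, pow_one]
    linarith
  · simp only [Nat.reduceAdd, pow_two, Complex.mul_im]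
    have : 0 < (√3 * s) * (2 - s) := mul_pos hb (by linarith)
    nlinarith
  · have e : ((⟨1 - s / 2, √3 * s / 2⟩ : ℂ) ^ (2 + 1)).im = (3 / 2) * (√3 * s) * (1 - s) := by
      rw [pow_succ, pow_two]
      simp only [Complex.mul_im, Complex.mul_re]
      linear_combination (-(√3 * s ^ 3) / 8 : ℝ) * h3
    rw [e]
    have : 0 < (√3 * s) * (1 - s) := mul_pos hb (by linarith)
    nlinarith

lemma im_four {s : ℝ} (h0 : 0 < s) (h1 : s < 1) {k : ℕ} (hk : k < 4) :
    0 < ((1 + Complex.I * s) ^ (k + 1)).im := by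
  have hw : (1 + Complex.I * s) = ⟨1, s⟩ := by
    apply Complex.ext <;> simp
  rw [hw]
  have hs2 : s ^ 2 < 1 := by nlinarith
  interval_cases k
  · simpa using h0
  · simp only [Nat.reduceAdd, pow_two, Complex.mul_im]
    linarith
  · have e : ((⟨1, s⟩ : ℂ) ^ (2 + 1)).im = s * (3 - s ^ 2) := by
      rw [pow_succ, pow_two]
      simp only [Complex.mul_im, Complex.mul_re]
      ring
    rw [e]
    exact mul_pos h0 (by linarith)
  · have e : ((⟨1, s⟩ : ℂ) ^ (3 + 1)).im = 4 * s * (1 - s ^ 2) := by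
      rw [pow_succ, pow_succ, pow_two]
      simp only [Complex.mul_im, Complex.mul_re]
      ring
    rw [e]
    exact mul_pos (by linarith) (by linarith)

theorem taskChebA : TaskChebA := by
  intro N ζ h k hk
  refine ⟨fun j c => partOne h hk j c, ?_, ?_⟩
  · refine ⟨fun i => (if i = 0 ∨ (N = 4 ∧ i = 2) then ({0} : Finset ℝ) else ∅) ∪
      (if i + k + 1 = N then ({1} : Finset ℝ) else ∅), ?_, ?_, ?_⟩
    · intro i x hx
      simp only [Finset.mem_union] at hx
      rcases hx with hx | hx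
      · split_ifs at hx <;> simp_all
      · split_ifs at hx <;> simp_all
    · have hc : ∀ i : ℕ, ((if i = 0 ∨ (N = 4 ∧ i = 2) then ({0} : Finset ℝ) else ∅) ∪
          (if i + k + 1 = N then ({1} : Finset ℝ) else ∅)).card =
          (if i = 0 ∨ (N = 4 ∧ i = 2) then 1 else 0) + (if i + k + 1 = N then 1 else 0) := by
        intro i
        rw [Finset.card_union_of_disjoint]
        · split_ifs <;> simp
        · split_ifs <;> simp
      simp only [hc]
      rcases h with ⟨rfl, -⟩ | ⟨rfl, -⟩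
      · simp only [Finset.sum_range_succ, Finset.sum_range_zero]
        interval_cases k <;> decide
      · simp only [Finset.sum_range_succ, Finset.sum_range_zero]
        interval_cases k <;> decide
    · intro j c i hi x hx
      apply comb_iter_eval
      intro m hm
      simp only [Finset.mem_union] at hx
      rcases hx with hx | hx
      · split_ifs at hx with hc
        · rw [Finset.mem_singleton] at hx
          subst hx
          rw [Complex.ofReal_zero, mul_zero, add_zero, one_pow, mul_one]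
          rcases hc with rfl | ⟨rfl, rfl⟩
          · simp
          · rcases h with ⟨h4, -⟩ | ⟨-, rfl⟩
            · omega
            · simp
        · simp at hx
      · split_ifs at hx with hc
        · rw [Finset.mem_singleton] at hx
          subst hx
          rw [Complex.ofReal_one, mul_one]
          rcases h with ⟨rfl, hz⟩ | ⟨rfl, rfl⟩
          · exact one_three hz i _ (2 * m + k) (by omega)
          · have he : 4 * m + k + 1 - i = 2 * (2 * m + k - 1) := by omega
            rw [he]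
            exact one_four i _ (m + 1) (by omega)
        · simp at hx
  · intro s h0 h1
    rw [U_eval, pow_zero, one_mul]
    rcases h with ⟨rfl, rfl⟩ | ⟨rfl, rfl⟩
    · exact im_three h0 h1 hk
    · exact im_four h0 h1 hk

end Pool.Agent.H730R5.Berg
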